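import Pool.Agent.Results.MP_97409a_pr.DaleyBoundFails

set_option autoImplicit false

open MeasureTheory
open scoped ENNReal

namespace Pool.Agent.Results.MP_97409a_pr.NoWaitingClassified

open Pool.Agent.Results.MP_97409a_pr.DaleyBoundFails

/-! ### Necessity: without waiting, `S ≤ k T` almost surely -/

/-- The vectors whose `n` last coordinates are at least `s0 - n t0`. -/
def high {m : ℕ} (s0 t0 : ℝ) (n : ℕ) : Set (Fin (m + 1) → ℝ) :=
  {w | ∀ i : Fin (m + 1), m + 1 ≤ (i : ℕ) + n → s0 - n * t0 ≤ w i}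

lemma measurableSet_high {m : ℕ} (s0 t0 : ℝ) (n : ℕ) :
    MeasurableSet (high (m := m) s0 t0 n) := by
  have : high (m := m) s0 t0 n = ⋂ i : Fin (m + 1), ⋂ (_ : m + 1 ≤ (i : ℕ) + n),
      {w | s0 - n * t0 ≤ w i} := by
    ext w
    simp [high]
  rw [this]
  exact MeasurableSet.iInter (fun i => MeasurableSet.iInter (fun _ =>
    measurableSet_le measurable_const (measurable_pi_apply i)))

lemma high_step {m : ℕ} (s0 t0 : ℝ) (n : ℕ) (hn : n < m + 1)
    (w : Fin (m + 1) → ℝ) (hw : w ∈ high (m := m) s0 t0 n) (h0 : 0 ≤ w 0) (s t : ℝ)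
    (hs : s0 ≤ s) (ht : t ≤ t0) (ht0 : 0 ≤ t0) :
    kwStep w s t ∈ high (m := m) s0 t0 (n + 1) := by
  intro j hj
  by_contra hlt
  push Not at hlt
  unfold kwStep at hlt
  set v : Fin (m + 1) → ℝ := fun i => max (w i + (if (i : ℕ) = 0 then s else 0) - t) 0 with hv
  have h1 : (j : ℕ) < (Finset.univ.filter (fun i => v i ≤ increasing v j)).card :=
    (increasing_le_iff v j (increasing v j)).1 le_rfl
  have h2 : (Finset.univ.filter (fun i => v i ≤ increasing v j)).card ≤
      (Finset.Ico 1 (m + 1 - n)).card := by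
    apply Finset.card_le_card_of_injOn (fun i : Fin (m + 1) => (i : ℕ))
    · intro i hi
      rw [Finset.mem_coe, Finset.mem_filter] at hi
      have hi2 : v i < s0 - ((n + 1 : ℕ) : ℝ) * t0 := lt_of_le_of_lt hi.2 hlt
      rw [Finset.mem_coe, Finset.mem_Ico]
      push_cast at hi2
      have hnt : 0 ≤ (n : ℝ) * t0 := by positivity
      constructor
      · change 1 ≤ (i : ℕ)
        by_contra hz
        have hz0 : (i : ℕ) = 0 := by omega
        have hi0 : i = 0 := Fin.ext hz0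
        have : w i + s - t ≤ v i := by
          rw [hv]
          simp only [hz0, if_true]
          exact le_max_left _ _
        rw [hi0] at this hi2
        linarith
      · change (i : ℕ) < m + 1 - n
        by_contra hz
        have hz1 : m + 1 ≤ (i : ℕ) + n := by omega
        have hz0 : (i : ℕ) ≠ 0 := by omega
        have hwi := hw i hz1
        have : w i - t ≤ v i := by
          rw [hv]
          simp only [hz0, if_false, add_zero]
          exact le_max_left _ _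
        linarith
    · intro a _ b _ hab
      exact Fin.ext hab
  rw [Nat.card_Ico] at h2
  omega

lemma high_pos {m : ℕ} {μT μS : Measure ℝ} [IsProbabilityMeasure μT] [IsProbabilityMeasure μS]
    {π : Measure (Fin (m + 1) → ℝ)} (hπ : IsStationary (m + 1) μT μS π) (s0 t0 : ℝ)
    (ht0 : 0 ≤ t0) (hS : μS (Set.Ici s0) ≠ 0) (hT : μT (Set.Iic t0) ≠ 0) (n : ℕ)
    (hn : n ≤ m + 1) : π (high (m := m) s0 t0 n) ≠ 0 := by
  have := hπ.prob
  induction n with
  | zero =>
    have : high (m := m) s0 t0 0 = Set.univ := by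
      ext w
      simp only [high, Set.mem_ofPred_eq, Set.mem_univ, iff_true]
      intro i hi
      have := i.isLt
      omega
    rw [this, measure_univ]
    exact one_ne_zero
  | succ n ih =>
    have ih' := ih (by omega)
    have e1 : π (high (m := m) s0 t0 (n + 1)) = (π.prod (μS.prod μT))
        ((fun p : (Fin (m + 1) → ℝ) × ℝ × ℝ => kwStep p.1 p.2.1 p.2.2) ⁻¹'
          (high (m := m) s0 t0 (n + 1))) := by
      conv_lhs => rw [← hπ.invariant]
      rw [Measure.map_apply measurable_kwStep (measurableSet_high s0 t0 (n + 1))]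
    have hsub : ((high (m := m) s0 t0 n ∩ {w | 0 ≤ w 0}) ×ˢ (Set.Ici s0 ×ˢ Set.Iic t0)) ⊆
        ((fun p : (Fin (m + 1) → ℝ) × ℝ × ℝ => kwStep p.1 p.2.1 p.2.2) ⁻¹'
          (high (m := m) s0 t0 (n + 1))) := by
      rintro ⟨w, s, t⟩ ⟨⟨h1, h2⟩, h3, h4⟩
      exact high_step s0 t0 n (by omega) w h1 h2 s t h3 h4 ht0
    have h2 := measure_mono (μ := π.prod (μS.prod μT)) hsub
    rw [← e1, Measure.prod_prod, Measure.prod_prod] at h2
    have h3 : π (high (m := m) s0 t0 n) ≤ π (high (m := m) s0 t0 n ∩ {w | 0 ≤ w 0}) := by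
      apply measure_mono_ae
      filter_upwards [hπ.ordered] with w hw h
      exact ⟨h, hw.2 0⟩
    intro h4
    rw [h4, nonpos_iff_eq_zero] at h2
    rcases mul_eq_zero.1 h2 with h | h
    · rw [h, nonpos_iff_eq_zero] at h3
      exact ih' h3
    · rcases mul_eq_zero.1 h with h | h
      · exact hS h
      · exact hT h

lemma dichotomy {m : ℕ} {μT μS : Measure ℝ} [IsProbabilityMeasure μT] [IsProbabilityMeasure μS]
    {π : Measure (Fin (m + 1) → ℝ)} (hπ : IsStationary (m + 1) μT μS π) (hk : 0 < m + 1)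
    (hW : meanWait hk π = 0) (s0 t0 : ℝ) (ht0 : 0 ≤ t0) (hst : ((m + 1 : ℕ) : ℝ) * t0 < s0)
    (hT : μT (Set.Iic t0) ≠ 0) : μS (Set.Ici s0) = 0 := by
  by_contra hS
  apply high_pos hπ s0 t0 ht0 hS hT (m + 1) le_rfl
  unfold meanWait at hW
  rw [lintegral_eq_zero_iff' (measurable_pi_apply _).ennreal_ofReal.aemeasurable] at hW
  rw [measure_eq_zero_iff_ae_notMem]
  filter_upwards [hW] with w hw h
  have h1 := h ⟨0, hk⟩ (by simp)
  simp only [Pi.zero_apply, ENNReal.ofReal_eq_zero] at hw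
  linarith

lemma exists_bound {m : ℕ} {μT μS : Measure ℝ} [IsProbabilityMeasure μT]
    [IsProbabilityMeasure μS] (hT0 : ∀ᵐ t ∂μT, 0 ≤ t)
    {π : Measure (Fin (m + 1) → ℝ)} (hπ : IsStationary (m + 1) μT μS π) (hk : 0 < m + 1)
    (hW : meanWait hk π = 0) :
    ∃ c : ℝ, 0 ≤ c ∧ (∀ᵐ t ∂μT, c ≤ t) ∧ ∀ᵐ s ∂μS, s ≤ ((m + 1 : ℕ) : ℝ) * c := by
  set B : Set ℝ := {t | μT (Set.Iio t) = 0} with hB
  have hB0 : (0 : ℝ) ∈ B := by
    rw [hB, Set.mem_ofPred_eq]
    rw [measure_eq_zero_iff_ae_notMem]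
    filter_upwards [hT0] with t ht
    simpa using ht
  have hBb : BddAbove B := by
    by_contra hno
    rw [not_bddAbove_iff] at hno
    have h1 : μT Set.univ = 0 := by
      have : (Set.univ : Set ℝ) ⊆ ⋃ n : ℕ, Set.Iio (n : ℝ) := by
        intro x _
        obtain ⟨n, hn⟩ := exists_nat_gt x
        exact Set.mem_iUnion.2 ⟨n, hn⟩
      apply measure_mono_null this
      rw [measure_iUnion_null_iff]
      intro n
      obtain ⟨y, hy, hny⟩ := hno n
      exact measure_mono_null (Set.Iio_subset_Iio hny.le) hy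
    rw [measure_univ] at h1
    exact one_ne_zero h1
  set c := sSup B with hc
  have hc0 : 0 ≤ c := le_csSup hBb hB0
  have hcT : μT (Set.Iio c) = 0 := by
    have : Set.Iio c ⊆ ⋃ n : ℕ, Set.Iio (c - 1 / (n + 1 : ℝ)) := by
      intro x hx
      have hx' : (0 : ℝ) < c - x := sub_pos.2 (Set.mem_Iio.1 hx)
      obtain ⟨n, hn⟩ := exists_nat_one_div_lt hx'
      refine Set.mem_iUnion.2 ⟨n, ?_⟩
      rw [Set.mem_Iio]
      linarith
    apply measure_mono_null this
    rw [measure_iUnion_null_iff]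
    intro n
    have hlt : c - 1 / (n + 1 : ℝ) < c := by
      have : (0 : ℝ) < 1 / (n + 1 : ℝ) := by positivity
      linarith
    obtain ⟨y, hy, hny⟩ := exists_lt_of_lt_csSup ⟨0, hB0⟩ hlt
    exact measure_mono_null (Set.Iio_subset_Iio hny.le) hy
  have hKpos : (0 : ℝ) < ((m + 1 : ℕ) : ℝ) := by positivity
  refine ⟨c, hc0, ?_, ?_⟩
  · rw [measure_eq_zero_iff_ae_notMem] at hcT
    filter_upwards [hcT] with t ht
    simpa using ht
  · have hSz : μS (Set.Ioi (((m + 1 : ℕ) : ℝ) * c)) = 0 := by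
      have : Set.Ioi (((m + 1 : ℕ) : ℝ) * c) ⊆
          ⋃ n : ℕ, Set.Ici (((m + 1 : ℕ) : ℝ) * c + 1 / (n + 1 : ℝ)) := by
        intro x hx
        have hx' : (0 : ℝ) < x - ((m + 1 : ℕ) : ℝ) * c := sub_pos.2 (Set.mem_Ioi.1 hx)
        obtain ⟨n, hn⟩ := exists_nat_one_div_lt hx'
        refine Set.mem_iUnion.2 ⟨n, ?_⟩
        rw [Set.mem_Ici]
        linarith
      apply measure_mono_null this
      rw [measure_iUnion_null_iff]
      intro n
      have hpos : (0 : ℝ) < 1 / (n + 1 : ℝ) := by positivity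
      set e : ℝ := 1 / (n + 1 : ℝ) / (2 * ((m + 1 : ℕ) : ℝ)) with he
      have hepos : 0 < e := by positivity
      have hee : ((m + 1 : ℕ) : ℝ) * e = 1 / (n + 1 : ℝ) / 2 := by
        rw [he]
        field_simp
      apply dichotomy hπ hk hW _ (c + e) (by linarith)
      · rw [mul_add, hee]
        linarith
      · intro hz
        have : c + e ∈ B := measure_mono_null Set.Iio_subset_Iic_self hz
        have := le_csSup hBb this
        linarith
    rw [measure_eq_zero_iff_ae_notMem] at hSz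
    filter_upwards [hSz] with s hs
    simpa using hs

/-! ### Sufficiency -/

lemma statLaw_meanWait {m : ℕ} (μT μS : Measure ℝ) [IsProbabilityMeasure μT]
    [IsProbabilityMeasure μS] (c : ℝ) (hT : ∀ᵐ t ∂μT, c ≤ t)
    (hS : ∀ᵐ s ∂μS, s ≤ (m + 1) * c) (hk : 0 < m + 1) :
    meanWait hk (statLaw m μT μS) = 0 := by
  have hmeas : Measurable (fun z : Fin (m + 1) → ℝ × ℝ => increasing (slots z)) :=
    measurable_increasing.comp measurable_slots
  unfold meanWait statLaw
  rw [lintegral_map (measurable_pi_apply _).ennreal_ofReal hmeas]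
  have hm2 : Measurable (fun z : Fin (m + 1) → ℝ × ℝ =>
      ENNReal.ofReal (increasing (slots z) ⟨0, hk⟩)) :=
    ((measurable_pi_apply (⟨0, hk⟩ : Fin (m + 1))).comp hmeas).ennreal_ofReal
  rw [lintegral_eq_zero_iff' hm2.aemeasurable]
  set ν := μS.prod μT with hν
  have hνs : ∀ᵐ x ∂ν, x.1 ≤ (m + 1) * c :=
    (Measure.quasiMeasurePreserving_fst (μ := μS) (ν := μT)).ae hS
  have hνt : ∀ᵐ x ∂ν, c ≤ x.2 :=
    (Measure.quasiMeasurePreserving_snd (μ := μS) (ν := μT)).ae hT
  have hz : ∀ᵐ z ∂(Measure.pi (fun _ : Fin (m + 1) => ν)), ∀ i,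
      (z i).1 ≤ (m + 1) * c ∧ c ≤ (z i).2 := by
    rw [ae_all_iff]
    intro i
    exact (Measure.quasiMeasurePreserving_eval (fun _ : Fin (m + 1) => ν) i).ae (hνs.and hνt)
  filter_upwards [hz] with z h
  have h0 : slots z 0 = 0 := slots_zero c z (fun i => (h i).1) (fun i => (h i).2)
  simp only [Pi.zero_apply, ENNReal.ofReal_eq_zero]
  rw [increasing_le_iff]
  apply Finset.card_pos.2
  exact ⟨0, Finset.mem_filter.2 ⟨Finset.mem_univ _, h0.le⟩⟩

/-- The criterion for arbitrary laws. -/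
theorem criterion (k : ℕ) (hk : 0 < k) (μT μS : Measure ℝ) [IsProbabilityMeasure μT]
    [IsProbabilityMeasure μS] (hT0 : ∀ᵐ t ∂μT, 0 ≤ t) :
    (∃ π, IsStationary k μT μS π ∧ meanWait hk π = 0) ↔
      ∃ c : ℝ, 0 ≤ c ∧ (∀ᵐ t ∂μT, c ≤ t) ∧ ∀ᵐ s ∂μS, s ≤ k * c := by
  obtain ⟨m, rfl⟩ : ∃ m, k = m + 1 := ⟨k - 1, by omega⟩
  constructor
  · rintro ⟨π, h1, h2⟩
    exact exists_bound hT0 h1 hk h2
  · rintro ⟨c, hc, h1, h2⟩
    have h3 : ∀ᵐ s ∂μS, s ≤ ((m : ℝ) + 1) * c := by
      filter_upwards [h2] with s hs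
      push_cast at hs
      exact hs
    exact ⟨statLaw m μT μS, statLaw_stationary m μT μS c hc h1 h3,
      statLaw_meanWait μT μS c h1 h3 hk⟩

/-! ### Every stationary law -/

/-- The sum of the maxima of the coordinates and of `0, c, 2c, ...`. -/
noncomputable def height {m : ℕ} (c : ℝ) (w : Fin (m + 1) → ℝ) : ℝ :=
  ∑ i : Fin (m + 1), max (w i) ((i : ℕ) * c)

lemma measurable_height {m : ℕ} (c : ℝ) : Measurable (height (m := m) c) := by
  unfold height
  apply Finset.measurable_sum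
  intro i _
  exact (measurable_pi_apply i).max measurable_const

lemma increasing_le_increasing {k : ℕ} (v z : Fin k → ℝ) (h : ∀ i, v i ≤ z i) (j : Fin k) :
    increasing v j ≤ increasing z j := by
  apply increasing_le v (increasing z) (increasing_mono z) (Tuple.sort z).symm
  intro i
  unfold increasing
  simpa using h i

lemma increasing_of_monotone {k : ℕ} (v : Fin k → ℝ) (h : Monotone v) : increasing v = v := by
  unfold increasing
  rw [Tuple.sort_eq_refl_iff_monotone.2 h]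
  rfl

lemma sum_increasing {k : ℕ} (z : Fin k → ℝ) : ∑ i, increasing z i = ∑ i, z i := by
  unfold increasing
  exact Equiv.sum_comp (Tuple.sort z) z

lemma height_step {m : ℕ} (c : ℝ) (hc : 0 ≤ c) (w : Fin (m + 1) → ℝ) (h0 : 0 ≤ w 0) (s t : ℝ)
    (hs : s ≤ (m + 1) * c) (ht : c ≤ t) :
    height c (kwStep w s t) ≤
      height c w - (w 0 - max (w 0 - (((m + 1) * c - s) + (t - c))) 0) := by
  set a : ℝ := max (w 0 - (((m + 1) * c - s) + (t - c))) 0 with ha
  have ha0 : 0 ≤ a := le_max_right _ _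
  have ha1 : w 0 - (((m + 1) * c - s) + (t - c)) ≤ a := le_max_left _ _
  set z : Fin (m + 1) → ℝ := Fin.cases (m * c + a) (fun l : Fin m =>
    max (w l.succ) ((l.succ : ℕ) * c) - c) with hz
  have hz0 : z 0 = m * c + a := rfl
  have hzs : ∀ l : Fin m, z l.succ = max (w l.succ) (((l.succ : Fin (m + 1)) : ℕ) * c) - c :=
    fun l => rfl
  -- domination from above
  have h1 : ∀ j, kwStep w s t j ≤ increasing z j := by
    intro j
    unfold kwStep
    apply increasing_le_increasing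
    intro i
    refine Fin.cases ?_ (fun l => ?_) i
    · rw [hz0]
      simp only [Fin.val_zero, if_true]
      apply max_le
      · linarith
      · positivity
    · rw [hzs]
      simp only [Fin.val_succ, Nat.add_eq_zero_iff, one_ne_zero, and_false, if_false, add_zero]
      have h2 := le_max_left (w l.succ) (((l : ℕ) + 1 : ℕ) * c)
      have h3 := le_max_right (w l.succ) (((l : ℕ) + 1 : ℕ) * c)
      have h4 : 0 ≤ ((l : ℕ) : ℝ) * c := by positivity
      push_cast at h2 h3 ⊢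
      apply max_le
      · linarith
      · linarith
  have h2 : ∀ j : Fin (m + 1), ((j : ℕ) : ℝ) * c ≤ increasing z j := by
    intro j
    have hmon : Monotone (fun i : Fin (m + 1) => ((i : ℕ) : ℝ) * c) := by
      intro a b hab
      have : ((a : ℕ) : ℝ) ≤ (b : ℕ) := by exact_mod_cast hab
      simp only
      nlinarith
    have h5 : increasing ((fun i : Fin (m + 1) => ((i : ℕ) : ℝ) * c) ∘ (finRotate (m + 1)).symm) =
        (fun i : Fin (m + 1) => ((i : ℕ) : ℝ) * c) := by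
      rw [increasing_comp_perm, increasing_of_monotone _ hmon]
    have h6 : increasing ((fun i : Fin (m + 1) => ((i : ℕ) : ℝ) * c) ∘
        (finRotate (m + 1)).symm) j ≤ increasing z j := by
      apply increasing_le_increasing
      intro i
      refine Fin.cases ?_ (fun l => ?_) i
      · have : (finRotate (m + 1)).symm 0 = Fin.last m := by
          rw [Equiv.symm_apply_eq, finRotate_last]
        simp only [Function.comp_apply]
        rw [this, hz0]
        simp only [Fin.val_last]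
        linarith
      · have : (finRotate (m + 1)).symm l.succ = l.castSucc := by
          rw [Equiv.symm_apply_eq, finRotate_apply]
          simp
        simp only [Function.comp_apply]
        rw [this, hzs]
        have h3 := le_max_right (w l.succ) (((l : ℕ) + 1 : ℕ) * c)
        simp only [Fin.val_succ, Fin.val_castSucc]
        push_cast at h3 ⊢
        linarith
    rw [h5] at h6
    exact h6
  have h3 : height c (kwStep w s t) ≤ ∑ i, increasing z i := by
    unfold height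
    apply Finset.sum_le_sum
    intro i _
    exact max_le (h1 i) (h2 i)
  rw [sum_increasing, Fin.sum_univ_succ, hz0] at h3
  have h4 : height c w = w 0 + ∑ l : Fin m, max (w l.succ) (((l.succ : Fin (m + 1)) : ℕ) * c) := by
    unfold height
    rw [Fin.sum_univ_succ]
    congr 1
    simpa using h0
  have h5 : ∑ l : Fin m, z l.succ =
      (∑ l : Fin m, max (w l.succ) (((l.succ : Fin (m + 1)) : ℕ) * c)) - m * c := by
    simp only [hzs]
    rw [Finset.sum_sub_distrib]
    simp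
  rw [h5] at h3
  rw [h4]
  linarith

lemma meanWait_zero_all {m : ℕ} {μT μS : Measure ℝ} [IsProbabilityMeasure μT]
    [IsProbabilityMeasure μS]
    {π : Measure (Fin (m + 1) → ℝ)} (hπ : IsStationary (m + 1) μT μS π) (c : ℝ) (hc : 0 ≤ c)
    (hT : ∀ᵐ t ∂μT, c ≤ t) (hS : ∀ᵐ s ∂μS, s ≤ (m + 1) * c)
    (hnd : ¬ ((∀ᵐ t ∂μT, t = c) ∧ ∀ᵐ s ∂μS, s = (m + 1) * c)) (hk : 0 < m + 1) :
    meanWait hk π = 0 := by
  have := hπ.prob
  set ν := μS.prod μT with hν
  set P := π.prod ν with hP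
  have hνs : ∀ᵐ x ∂ν, x.1 ≤ (m + 1) * c :=
    (Measure.quasiMeasurePreserving_fst (μ := μS) (ν := μT)).ae hS
  have hνt : ∀ᵐ x ∂ν, c ≤ x.2 :=
    (Measure.quasiMeasurePreserving_snd (μ := μS) (ν := μT)).ae hT
  have hPν : ∀ᵐ p ∂P, p.2.1 ≤ (m + 1) * c ∧ c ≤ p.2.2 :=
    (Measure.quasiMeasurePreserving_snd (μ := π) (ν := ν)).ae (hνs.and hνt)
  have hPπ : ∀ᵐ p ∂P, 0 ≤ p.1 0 := by
    apply (Measure.quasiMeasurePreserving_fst (μ := π) (ν := ν)).ae
      (p := fun w : Fin (m + 1) → ℝ => 0 ≤ w 0)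
    filter_upwards [hπ.ordered] with w hw
    exact hw.2 0
  have hstep : ∀ᵐ p ∂P, height c (kwStep p.1 p.2.1 p.2.2) ≤
      height c p.1 - (p.1 0 - max (p.1 0 - (((m + 1) * c - p.2.1) + (p.2.2 - c))) 0) := by
    filter_upwards [hPν, hPπ] with p h1 h2
    exact height_step c hc p.1 h2 p.2.1 p.2.2 h1.1 h1.2
  have hle : ∀ᵐ p ∂P, height c (kwStep p.1 p.2.1 p.2.2) ≤ height c p.1 := by
    filter_upwards [hstep, hPν, hPπ] with p h1 h2 h3
    have : max (p.1 0 - (((m + 1) * c - p.2.1) + (p.2.2 - c))) 0 ≤ p.1 0 := by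
      apply max_le _ h3
      linarith [h2.1, h2.2]
    linarith
  have hrat : ∀ᵐ p ∂P, ∀ r : ℚ, height c (kwStep p.1 p.2.1 p.2.2) ≤ r → height c p.1 ≤ r := by
    rw [ae_all_iff]
    intro r
    have mA : MeasurableSet {w : Fin (m + 1) → ℝ | height c w ≤ r} :=
      measurableSet_le (measurable_height c) measurable_const
    have e1 : P {p | height c (kwStep p.1 p.2.1 p.2.2) ≤ r} =
        π {w : Fin (m + 1) → ℝ | height c w ≤ r} := by
      conv_rhs => rw [← hπ.invariant]
      rw [Measure.map_apply measurable_kwStep mA]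
      rfl
    have e2 : P {p | height c p.1 ≤ r} = π {w : Fin (m + 1) → ℝ | height c w ≤ r} := by
      have : {p : (Fin (m + 1) → ℝ) × ℝ × ℝ | height c p.1 ≤ r} =
          {w : Fin (m + 1) → ℝ | height c w ≤ r} ×ˢ Set.univ := by
        ext p
        simp
      rw [this, hP, Measure.prod_prod, measure_univ, mul_one]
    have hsub : {p : (Fin (m + 1) → ℝ) × ℝ × ℝ | height c p.1 ≤ r} ≤ᵐ[P]
        {p | height c (kwStep p.1 p.2.1 p.2.2) ≤ r} := by
      filter_upwards [hle] with p h1 h2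
      exact h1.trans h2
    have mB : MeasurableSet {p : (Fin (m + 1) → ℝ) × ℝ × ℝ | height c p.1 ≤ r} :=
      measurableSet_le ((measurable_height c).comp measurable_fst) measurable_const
    have heq := ae_eq_of_ae_subset_of_measure_ge hsub (by rw [e1, e2]) mB.nullMeasurableSet
      (measure_ne_top _ _)
    filter_upwards [heq] with p h1 h2
    have : (p ∈ {p : (Fin (m + 1) → ℝ) × ℝ × ℝ | height c p.1 ≤ r}) =
      (p ∈ {p : (Fin (m + 1) → ℝ) × ℝ × ℝ | height c (kwStep p.1 p.2.1 p.2.2) ≤ r}) := h1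
    exact this.mpr h2
  have hcore : ∀ᵐ p ∂P, ¬ (0 < p.1 0 ∧ 0 < ((m + 1) * c - p.2.1) + (p.2.2 - c)) := by
    filter_upwards [hrat, hstep] with p h1 h2 h3
    have h4 : max (p.1 0 - (((m + 1) * c - p.2.1) + (p.2.2 - c))) 0 < p.1 0 :=
      max_lt (by linarith [h3.2]) h3.1
    have h5 : height c (kwStep p.1 p.2.1 p.2.2) < height c p.1 := by linarith
    obtain ⟨r, hr1, hr2⟩ := exists_rat_btwn h5
    exact absurd (h1 r hr1.le) (not_le.2 hr2)
  have hprod : P ({w | 0 < w 0} ×ˢ {x | 0 < ((m + 1) * c - x.1) + (x.2 - c)}) = 0 := by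
    rw [measure_eq_zero_iff_ae_notMem]
    filter_upwards [hcore] with p h1 h2
    exact h1 ⟨h2.1, h2.2⟩
  rw [hP, Measure.prod_prod] at hprod
  rcases mul_eq_zero.1 hprod with h | h
  · unfold meanWait
    rw [lintegral_eq_zero_iff' (measurable_pi_apply _).ennreal_ofReal.aemeasurable]
    rw [measure_eq_zero_iff_ae_notMem] at h
    filter_upwards [h] with w hw
    simp only [Pi.zero_apply]
    apply ENNReal.ofReal_of_nonpos
    exact not_lt.1 hw
  · exfalso
    apply hnd
    rw [measure_eq_zero_iff_ae_notMem] at h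
    have hν2 : ∀ᵐ x ∂ν, x.2 = c ∧ x.1 = (m + 1) * c := by
      filter_upwards [h, hνs, hνt] with x h1 h2 h3
      have h4 : ((m + 1) * c - x.1) + (x.2 - c) ≤ 0 := not_lt.1 h1
      constructor <;> linarith
    have k1 : ∀ᵐ t ∂(ν.map Prod.snd), t = c := by
      rw [ae_map_iff (p := fun t : ℝ => t = c) measurable_snd.aemeasurable
        (measurableSet_eq_fun measurable_id measurable_const)]
      filter_upwards [hν2] with x hx
      exact hx.1
    have k2 : ∀ᵐ s ∂(ν.map Prod.fst), s = (m + 1) * c := by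
      rw [ae_map_iff (p := fun s : ℝ => s = (m + 1) * c) measurable_fst.aemeasurable
        (measurableSet_eq_fun measurable_id measurable_const)]
      filter_upwards [hν2] with x hx
      exact hx.2
    rw [hν, Measure.map_snd_prod, measure_univ, one_smul] at k1
    rw [hν, Measure.map_fst_prod, measure_univ, one_smul] at k2
    exact ⟨k1, k2⟩

/-- The criterion for every stationary law, when the load is less than one. -/
theorem criterion_all (k : ℕ) (hk : 0 < k) (μT μS : Measure ℝ) [IsProbabilityMeasure μT]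
    [IsProbabilityMeasure μS] (hT0 : ∀ᵐ t ∂μT, 0 ≤ t)
    (hρ : ∫ s, s ∂μS < k * ∫ t, t ∂μT) (π : Measure (Fin k → ℝ))
    (hπ : IsStationary k μT μS π) :
    meanWait hk π = 0 ↔
      ∃ c : ℝ, 0 ≤ c ∧ (∀ᵐ t ∂μT, c ≤ t) ∧ ∀ᵐ s ∂μS, s ≤ k * c := by
  obtain ⟨m, rfl⟩ : ∃ m, k = m + 1 := ⟨k - 1, by omega⟩
  constructor
  · intro h
    exact exists_bound hT0 hπ hk h
  · rintro ⟨c, hc, h1, h2⟩
    have h3 : ∀ᵐ s ∂μS, s ≤ ((m : ℝ) + 1) * c := by
      filter_upwards [h2] with s hs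
      push_cast at hs
      exact hs
    apply meanWait_zero_all hπ c hc h1 h3 _ hk
    rintro ⟨h4, h5⟩
    have h6 : ∫ t, t ∂μT = c := by
      rw [integral_congr_ae (g := fun _ => c) h4]
      simp
    have h7 : ∫ s, s ∂μS = ((m : ℝ) + 1) * c := by
      rw [integral_congr_ae (g := fun _ => ((m : ℝ) + 1) * c) h5]
      simp
    rw [h6, h7] at hρ
    push_cast at hρ
    exact lt_irrefl _ hρ

/-! ### The classes of moments -/

/-- There are laws with the given moments for which a stationary law exists and every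
stationary law has mean wait zero. -/
def HasQuietSystem {k : ℕ} (hk : 0 < k) (mT mS mT2 mS2 : ℝ) : Prop :=
  ∃ μT μS : Measure ℝ, HasMoments μT mT mT2 ∧ HasMoments μS mS mS2 ∧
    (∃ π, IsStationary k μT μS π) ∧ ∀ π, IsStationary k μT μS π → meanWait hk π = 0

theorem quiet_of_lt (k : ℕ) (hk : 0 < k) (mT mS mT2 mS2 : ℝ) (hT0 : 0 < mT) (hS0 : 0 < mS)
    (hT2 : mT ^ 2 ≤ mT2) (hS2 : mS ^ 2 ≤ mS2) (hρ : mS < k * mT) (h2 : mS2 < k * mS * mT) :
    HasQuietSystem hk mT mS mT2 mS2 := by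
  obtain ⟨m, rfl⟩ : ∃ m, k = m + 1 := ⟨k - 1, by omega⟩
  have hkr : (0 : ℝ) < ((m + 1 : ℕ) : ℝ) := by exact_mod_cast hk
  set K : ℝ := ((m + 1 : ℕ) : ℝ) with hK
  have hS2pos : 0 < mS2 := by nlinarith
  set c : ℝ := mS2 / (K * mS) with hc
  have hcpos : 0 < c := by positivity
  have hKc : K * c = mS2 / mS := by rw [hc]; field_simp
  have hcT : c < mT := by
    rw [hc, div_lt_iff₀ (by positivity)]
    nlinarith
  set p : ℝ := mS ^ 2 / mS2 with hp
  have hp0 : 0 ≤ p := by positivity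
  have hp1 : p ≤ 1 := by rw [hp, div_le_one hS2pos]; exact hS2
  set v : ℝ := mT2 - mT ^ 2 with hv
  have hv0 : 0 ≤ v := by rw [hv]; linarith
  set ε : ℝ := mT - c with hε
  have hε0 : 0 < ε := by rw [hε]; linarith
  set q : ℝ := ε ^ 2 / (v + ε ^ 2) with hq
  have hden : 0 < v + ε ^ 2 := by positivity
  have hq0 : 0 < q := by positivity
  have hq1 : q ≤ 1 := by rw [hq, div_le_one hden]; linarith
  have HT : HasMoments (twoPoint c (mT + v / ε) q) mT mT2 := by
    apply twoPoint_moments _ _ _ _ _ hq0.le hq1 hcpos.le (by positivity)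
    · have : c = mT - ε := by rw [hε]; ring
      rw [this, hq]
      field_simp
      ring
    · have h3 : c = mT - ε := by rw [hε]; ring
      have h4 : mT2 = v + mT ^ 2 := by rw [hv]; ring
      rw [h3, hq, h4]
      field_simp
      ring
  have HS : HasMoments (twoPoint 0 (mS2 / mS) p) mS mS2 := by
    apply twoPoint_moments _ _ _ _ _ hp0 hp1 le_rfl (by positivity)
    · rw [hp]; field_simp; ring
    · rw [hp]; field_simp; ring
  have := HT.prob
  have := HS.prob
  have hvε : 0 ≤ v / ε := by positivity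
  have aT : ∀ᵐ t ∂(twoPoint c (mT + v / ε) q), c ≤ t :=
    twoPoint_ae _ _ _ _ le_rfl (by linarith)
  have aS : ∀ᵐ s ∂(twoPoint 0 (mS2 / mS) p), s ≤ (m + 1) * c := by
    have hK' : ((m : ℝ) + 1) * c = mS2 / mS := by
      rw [← hKc, hK]
      push_cast
      ring
    rw [hK']
    exact twoPoint_ae _ _ _ _ (by positivity) le_rfl
  refine ⟨_, _, HT, HS, ⟨_, statLaw_stationary m _ _ c hcpos.le aT aS⟩, ?_⟩
  intro π hπ
  have hρ' : ∫ s, s ∂(twoPoint 0 (mS2 / mS) p) <
      ((m + 1 : ℕ) : ℝ) * ∫ t, t ∂(twoPoint c (mT + v / ε) q) := by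
    rw [HS.mean, HT.mean]
    exact hρ
  refine (criterion_all (m + 1) hk _ _ HT.nonneg hρ' π hπ).2 ⟨c, hcpos.le, aT, ?_⟩
  filter_upwards [aS] with s hs
  push_cast
  exact hs

theorem quiet_of_eq (k : ℕ) (hk : 0 < k) (mT mS mT2 mS2 : ℝ) (hT0 : 0 < mT) (hS0 : 0 < mS)
    (hρ : mS / (k * mT) < 1) (hT2 : mT2 = mT ^ 2) (h2 : mS2 = k * mS * mT) :
    HasQuietSystem hk mT mS mT2 mS2 := by
  obtain ⟨m, rfl⟩ : ∃ m, k = m + 1 := ⟨k - 1, by omega⟩
  have hkr : (0 : ℝ) < ((m + 1 : ℕ) : ℝ) := by exact_mod_cast hk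
  set K : ℝ := ((m + 1 : ℕ) : ℝ) with hK
  set p : ℝ := mS / (K * mT) with hp
  have hp0 : 0 ≤ p := by positivity
  have HT : HasMoments (twoPoint mT mT 1) mT mT2 := by
    apply twoPoint_moments _ _ _ _ _ zero_le_one le_rfl hT0.le hT0.le
    · ring
    · rw [hT2]; ring
  have HS : HasMoments (twoPoint 0 (K * mT) p) mS mS2 := by
    apply twoPoint_moments _ _ _ _ _ hp0 hρ.le le_rfl (by positivity)
    · rw [hp]; field_simp; ring
    · rw [hp, h2]; field_simp; ring
  have := HT.prob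
  have := HS.prob
  have aT : ∀ᵐ t ∂(twoPoint mT mT 1), mT ≤ t := twoPoint_ae _ _ _ _ le_rfl le_rfl
  have aS : ∀ᵐ s ∂(twoPoint 0 (K * mT) p), s ≤ (m + 1) * mT := by
    have hK' : ((m : ℝ) + 1) * mT = K * mT := by
      rw [hK]
      push_cast
      ring
    rw [hK']
    exact twoPoint_ae _ _ _ _ (by positivity) le_rfl
  have h0 : (twoPoint 0 (K * mT) p) {0} ≠ 0 := by
    unfold twoPoint
    simp only [Measure.coe_add, Measure.coe_smul, Pi.add_apply, Pi.smul_apply, smul_eq_mul]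
    have : Measure.dirac (0 : ℝ) {0} = 1 := by simp
    rw [this, mul_one]
    have hpos : 0 < ENNReal.ofReal (1 - p) := ENNReal.ofReal_pos.2 (by linarith)
    intro h
    exact hpos.ne' (add_eq_zero.1 h).1
  refine ⟨_, _, HT, HS, ⟨_, statLaw_stationary m _ _ mT hT0.le aT aS⟩, ?_⟩
  intro π hπ
  exact meanWait_zero hπ mT hT0 aT aS h0 hk

lemma moments_of_bound (k : ℕ) (hk : 0 < k) (mT mS mT2 mS2 : ℝ) (hS0 : 0 < mS)
    (μT μS : Measure ℝ) (HT : HasMoments μT mT mT2) (HS : HasMoments μS mS mS2) (c : ℝ)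
    (aT : ∀ᵐ t ∂μT, c ≤ t) (aS : ∀ᵐ s ∂μS, s ≤ k * c) :
    mS2 < k * mS * mT ∨ (mS2 = k * mS * mT ∧ mT2 = mT ^ 2) := by
  have := HT.prob
  have := HS.prob
  have hkr : (0 : ℝ) < (k : ℝ) := by exact_mod_cast hk
  have h1 : mS2 ≤ k * c * mS := by
    rw [← HS.second, ← HS.mean, ← integral_const_mul]
    apply integral_mono_ae HS.integrable_two (HS.integrable_one.const_mul _)
    filter_upwards [aS, HS.nonneg] with s h2 h3
    nlinarith
  have h2 : c ≤ mT := by
    rw [← HT.mean]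
    have : ∫ _t, c ∂μT ≤ ∫ t, t ∂μT := by
      apply integral_mono_ae (integrable_const c) HT.integrable_one
      filter_upwards [aT] with t h
      exact h
    simpa using this
  have h3 : (k : ℝ) * c * mS ≤ k * mS * mT := by
    have : 0 ≤ (k : ℝ) * mS * (mT - c) := by
      apply mul_nonneg (by positivity)
      linarith
    nlinarith
  rcases lt_or_eq_of_le (h1.trans h3) with h | h
  · exact Or.inl h
  · refine Or.inr ⟨h, ?_⟩
    have h4 : c = mT := by
      by_contra hne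
      have h5 : c < mT := lt_of_le_of_ne h2 hne
      have : 0 < (k : ℝ) * mS * (mT - c) := by
        apply mul_pos (by positivity)
        linarith
      nlinarith
    have h6 : ∫ t, (t - mT) ∂μT = 0 := by
      rw [integral_sub HT.integrable_one (integrable_const _), HT.mean]
      simp
    have hint : Integrable (fun t : ℝ => t - mT) μT :=
      HT.integrable_one.sub (integrable_const _)
    have hnn : 0 ≤ᵐ[μT] (fun t : ℝ => t - mT) := by
      filter_upwards [aT] with t ht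
      simp only [Pi.zero_apply]
      linarith
    have h7 : (fun t : ℝ => t - mT) =ᵐ[μT] 0 :=
      (integral_eq_zero_iff_of_nonneg_ae hnn hint).1 h6
    rw [← HT.second]
    have h8 : ∫ t, t ^ 2 ∂μT = ∫ _t, mT ^ 2 ∂μT := by
      apply integral_congr_ae
      filter_upwards [h7] with t ht
      simp only [Pi.zero_apply] at ht
      have : t = mT := by linarith
      rw [this]
    rw [h8]
    simp

/-- **Queues without waiting.** -/
theorem result :
    (¬ Conjecture) ∧
    (∀ (k : ℕ) (hk : 0 < k) (μT μS : Measure ℝ), IsProbabilityMeasure μT →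
      IsProbabilityMeasure μS → (∀ᵐ t ∂μT, 0 ≤ t) →
      ((∃ π, IsStationary k μT μS π ∧ meanWait hk π = 0) ↔
        ∃ c : ℝ, 0 ≤ c ∧ (∀ᵐ t ∂μT, c ≤ t) ∧ ∀ᵐ s ∂μS, s ≤ k * c)) ∧
    (∀ (k : ℕ) (hk : 0 < k) (μT μS : Measure ℝ), IsProbabilityMeasure μT →
      IsProbabilityMeasure μS → (∀ᵐ t ∂μT, 0 ≤ t) → ∫ s, s ∂μS < k * ∫ t, t ∂μT →
      ∀ π, IsStationary k μT μS π → (meanWait hk π = 0 ↔
        ∃ c : ℝ, 0 ≤ c ∧ (∀ᵐ t ∂μT, c ≤ t) ∧ ∀ᵐ s ∂μS, s ≤ k * c)) ∧
    (∀ (k : ℕ) (hk : 0 < k) (mT mS mT2 mS2 : ℝ), 0 < mT → 0 < mS → mT ^ 2 ≤ mT2 →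
      mS ^ 2 ≤ mS2 → mS / (k * mT) < 1 →
      ((∃ (μT μS : Measure ℝ) (π : Measure (Fin k → ℝ)), HasMoments μT mT mT2 ∧
          HasMoments μS mS mS2 ∧ IsStationary k μT μS π ∧ meanWait hk π = 0) ↔
        (mS2 < k * mS * mT ∨ (mS2 = k * mS * mT ∧ mT2 = mT ^ 2))) ∧
      ((mS2 < k * mS * mT ∨ (mS2 = k * mS * mT ∧ mT2 = mT ^ 2)) →
        HasQuietSystem hk mT mS mT2 mS2 ∧
        (PartA hk mT mS mT2 mS2 ↔ rhs k mT mS mS2 ≤ 0) ∧
        (PartB hk mT mS mT2 mS2 ↔ rhs k mT mS mS2 ≤ 0))) := by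
  refine ⟨DaleyBoundFails.result.1, ?_, ?_, ?_⟩
  · intro k hk μT μS i1 i2 hT0
    exact criterion k hk μT μS hT0
  · intro k hk μT μS i1 i2 hT0 hρ π hπ
    exact criterion_all k hk μT μS hT0 hρ π hπ
  · intro k hk mT mS mT2 mS2 hT0 hS0 hT2 hS2 hρ
    have hQ : (mS2 < k * mS * mT ∨ (mS2 = k * mS * mT ∧ mT2 = mT ^ 2)) →
        HasQuietSystem hk mT mS mT2 mS2 := by
      rintro (h | ⟨h, h'⟩)
      · exact quiet_of_lt k hk mT mS mT2 mS2 hT0 hS0 hT2 hS2
          (by rwa [div_lt_one (by positivity)] at hρ) h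
      · exact quiet_of_eq k hk mT mS mT2 mS2 hT0 hS0 hρ h' h
    refine ⟨⟨?_, ?_⟩, ?_⟩
    · rintro ⟨μT, μS, π, HT, HS, hπ, hW⟩
      have := HT.prob
      have := HS.prob
      obtain ⟨c, hc, aT, aS⟩ := (criterion k hk μT μS HT.nonneg).1 ⟨π, hπ, hW⟩
      exact moments_of_bound k hk mT mS mT2 mS2 hS0 μT μS HT HS c aT aS
    · intro h
      obtain ⟨μT, μS, HT, HS, ⟨π, hπ⟩, hall⟩ := hQ h
      exact ⟨μT, μS, π, HT, HS, hπ, hall π hπ⟩
    · intro h
      obtain ⟨μT, μS, HT, HS, ⟨π, hπ⟩, hall⟩ := hQ h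
      have hl : lhs hk mT mS π = 0 := by
        unfold lhs
        rw [hall π hπ, mul_zero]
      refine ⟨hQ h, ⟨?_, ?_⟩, ⟨?_, ?_⟩⟩
      · intro hA
        have := hA μT μS π HT HS hπ
        rw [hl, nonpos_iff_eq_zero, ENNReal.ofReal_eq_zero] at this
        exact this
      · intro hr μT' μS' π' _ _ _
        rw [ENNReal.ofReal_of_nonpos hr]
        exact zero_le
      · intro hB
        have := hB.1 (show lhs hk mT mS π ∈ _ from ⟨μT, μS, π, HT, HS, hπ, rfl⟩)
        rw [hl, nonpos_iff_eq_zero, ENNReal.ofReal_eq_zero] at this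
        exact this
      · intro hr
        unfold PartB
        rw [ENNReal.ofReal_of_nonpos hr]
        apply IsLeast.isGLB
        refine ⟨⟨μT, μS, π, HT, HS, hπ, hl.symm⟩, fun x _ => zero_le⟩

end Pool.Agent.Results.MP_97409a_pr.NoWaitingClassified
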